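import Pool.Agent.W2helper90.SM.Fin

/-!
# The Lieb-Thirring inequality with the semiclassical constant for densities mollified in one direction

Let `d = m + 1 ≥ 2` and `h ∈ C_c¹(ℝ)`, `∫ h² = 1`. For ALL orthonormal systems `u_1, …, u_N` in `H¹(ℝ^d; ℂ)` with
density `ρ` and kinetic energy `T` the kinetic inequality conjectured by Lieb and Thirring holds with the
semiclassical constant, if the density is mollified in ONE of the `d` directions and `N ∫ h'²` is added to
the kinetic energy: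

`K_d^cl * ∫ (∫ h(t)² ρ(z + t e_d) dt)^(1+2/d) dz ≤ T + N ∫ h'²`.

The method of coherent states gives the analogous inequality for the mollification in all the directions
(it is a consequence of the inequality above, by Jensen's inequality). In the dual form, the sum of `N`
negative eigenvalues of `-Δ - V`, `V` mollified in one direction, is bounded by the semiclassical expression
of the original potential and `N ∫ h'²`.

Proof. For `q ∈ ℝ` the functions `h(y - q) u_a(x, y)`, `y ∈ ℝ` the last coordinate, satisfy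
`∑ |h u_a⟩⟨h u_a| ≤ h(y - q)²` by Bessel's inequality, and the integrals of this function over the lines
`{x} × ℝ` are `1`. Hence the theorem of `SectionMeans` for functions with `∑ |u_a⟩⟨u_a| ≤ w` can be applied; in
its proof the argument of Li and Yau is used in the variable `y` only, and the sharp inequality for
operator valued potentials on `ℝ^(d-1)` with the exponent `3/2` in the other variables. Integration over `q`
gives the result, because `∫ h h' = 0`.

Authors: helper90 (idea, statements, pieces GRAM, SMO, FUB, APP, assembly), helpers 28 (lattice sum,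
bathtub principle), 71 (constants), 24 (coefficients, Parseval, Bessel), 93 (general functions in `H¹`,
mollification).
-/

set_option autoImplicit false

open MeasureTheory Filter
open scoped ENNReal

namespace Pool.Agent.Results.MP_cfe56d_mp.DirectionalMollification

/-- `u ∈ H¹(ℝ^d; ℂ)` with the weak derivatives `g i`. -/
structure IsSobolev {d : ℕ} (u : (Fin d → ℝ) → ℂ) (g : Fin d → (Fin d → ℝ) → ℂ) : Prop where
  memLp : MemLp u 2 volume
  memLp_deriv : ∀ i, MemLp (g i) 2 volume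
  weak : ∀ i (φ : (Fin d → ℝ) → ℝ), ContDiff ℝ (⊤ : ℕ∞) φ → HasCompactSupport φ →
    ∫ x, u x * (fderiv ℝ φ x (Pi.single i 1) : ℂ) = - ∫ x, g i x * (φ x : ℂ)

/-- An `L²`-orthonormal system of functions of `H¹(ℝ^d; ℂ)` with the weak derivatives `g`. -/
structure IsSystem {d N : ℕ} (u : Fin N → (Fin d → ℝ) → ℂ)
    (g : Fin N → Fin d → (Fin d → ℝ) → ℂ) : Prop where
  sobolev : ∀ n, IsSobolev (u n) (g n)
  orthonormal : ∀ n n', ∫ x, (starRingEnd ℂ) (u n x) * u n' x = if n = n' then 1 else 0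

/-- The density `∑ |u_n|²`. -/
noncomputable def density {d N : ℕ} (u : Fin N → (Fin d → ℝ) → ℂ) (x : Fin d → ℝ) : ℝ := ∑ n, ‖u n x‖ ^ 2

/-- The kinetic energy `∑ ∫ |∇u_n|²`. -/
noncomputable def kinetic {d N : ℕ} (g : Fin N → Fin d → (Fin d → ℝ) → ℂ) : ℝ :=
  ∑ n, ∑ i, ∫ x, ‖g n i x‖ ^ 2

/-- The volume of the unit ball of `ℝ^d`. -/
noncomputable def ballVolume (d : ℕ) : ℝ :=
  (volume (Metric.ball (0 : EuclideanSpace ℝ (Fin d)) 1)).toReal

/-- The semiclassical constant of the kinetic inequality, `d / (d + 2) * (2π)² / ω_d ^ (2 / d)`. -/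
noncomputable def Kcl (d : ℕ) : ℝ :=
  d / (d + 2) * ((2 * Real.pi) ^ 2 / ballVolume d ^ ((2 : ℝ) / d))

/-- The semiclassical constant for the sum of the negative eigenvalues,
`(2π)^(-d) ∫ (1 - |ξ|²)_+ dξ = 2 / (d + 2) * ω_d / (2π)^d`. -/
noncomputable def Lcl (d : ℕ) : ℝ := 2 / ((d : ℝ) + 2) * (ballVolume d / (2 * Real.pi) ^ d)

/-- The vector `t e`, `e` the last unit vector of `ℝ^(m+1)`. -/
def shift {m : ℕ} (t : ℝ) : Fin (m + 1) → ℝ := Pi.single (Fin.last m) t

/-- The mollification in the last direction, `∫ h(t)² F(z + t e) dt`. -/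
noncomputable def mollify {m : ℕ} (h : ℝ → ℝ) (F : (Fin (m + 1) → ℝ) → ℝ) (z : Fin (m + 1) → ℝ) : ℝ≥0∞ :=
  ∫⁻ t : ℝ, ENNReal.ofReal (h t ^ 2 * F (z + shift t))

theorem Lcl_eq {d : ℕ} (hd : 1 ≤ d) : Pool.Agent.W2helper90.RT.Lcl d = Lcl d := by
  obtain ⟨h0, h1⟩ := Pool.Agent.W2helper90.RT.t_CST2.2.2 d hd
  have hd0 : (0 : ℝ) < d := by exact_mod_cast hd
  have hpi := Real.pi_pos
  have hw : 0 < ballVolume d := Pool.Agent.R117.RL.om_pos d
  have h2 : LTd.Kcl d = (d : ℝ) / (d + 2) * ((2 * Real.pi) ^ d / ballVolume d) ^ (2 / (d : ℝ)) := by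
    rw [Real.div_rpow (by positivity) hw.le, ← Real.rpow_natCast (2 * Real.pi) d,
      ← Real.rpow_mul (by positivity), mul_div_cancel₀ _ hd0.ne', Real.rpow_two]
    rfl
  rw [h2] at h1
  have h3 := mul_left_cancel₀ (by positivity) h1
  have e1 : 0 ≤ (2 * Real.pi) ^ d / ballVolume d := by positivity
  have e2 : 0 ≤ 2 / (Pool.Agent.W2helper90.RT.Lcl d * ((d : ℝ) + 2)) := by positivity
  have h4 := Real.rpow_left_injOn (x := 2 / (d : ℝ)) (by positivity) e1 e2 h3
  unfold Lcl
  rw [div_eq_div_iff hw.ne' (by positivity)] at h4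
  have hp : (2 * Real.pi) ^ d ≠ 0 := by positivity
  field_simp
  linarith

theorem shift_qmp (m : ℕ) : Measure.QuasiMeasurePreserving
    (fun w : (Fin (m + 1) → ℝ) × ℝ => w.1 + shift w.2) (volume.prod volume) volume := by
  refine QuasiMeasurePreserving.prod_of_left ?_ (Eventually.of_forall fun t => ?_)
  · exact measurable_fst.add ((measurable_pi_lambda _ fun i => by
      unfold shift
      by_cases hi : i = Fin.last m
      · subst hi
        simpa using measurable_snd
      · simp [hi]))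
  · exact (measurePreserving_add_right volume (shift t : Fin (m + 1) → ℝ)).quasiMeasurePreserving

theorem shift_neg {m : ℕ} (t : ℝ) : (shift (-t) : Fin (m + 1) → ℝ) = -shift t := by
  unfold shift
  exact Pi.single_neg _ _

/-- the mollification is symmetric -/
theorem swap {m : ℕ} {h : ℝ → ℝ} (hh : Measurable h) {F V : (Fin (m + 1) → ℝ) → ℝ≥0∞}
    (hF : AEMeasurable F volume) (hV : Measurable V) (hF1 : ∀ z, F z ≠ ⊤) (hV1 : ∀ z, V z ≠ ⊤) :
    ∫⁻ z, V z * ∫⁻ t : ℝ, ENNReal.ofReal (h t ^ 2) * F (z + shift t) =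
      ∫⁻ z, F z * ∫⁻ t : ℝ, ENNReal.ofReal (h t ^ 2) * V (z + shift (-t)) := by
  have hhm : Measurable fun t : ℝ => ENNReal.ofReal (h t ^ 2) := (hh.pow_const 2).ennreal_ofReal
  have hA : AEMeasurable (Function.uncurry fun (z : Fin (m + 1) → ℝ) (t : ℝ) =>
      V z * (ENNReal.ofReal (h t ^ 2) * F (z + shift t))) (volume.prod volume) :=
    (hV.comp measurable_fst).aemeasurable.mul
      ((hhm.comp measurable_snd).aemeasurable.mul
        (hF.comp_quasiMeasurePreserving (shift_qmp m)))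
  have hB : AEMeasurable (Function.uncurry fun (z : Fin (m + 1) → ℝ) (t : ℝ) =>
      F z * (ENNReal.ofReal (h t ^ 2) * V (z + shift (-t)))) (volume.prod volume) := by
    refine AEMeasurable.mul ?_ ((hhm.comp measurable_snd).aemeasurable.mul ?_)
    · exact hF.comp_quasiMeasurePreserving Measure.quasiMeasurePreserving_fst
    · have e1 : Measurable fun w : (Fin (m + 1) → ℝ) × ℝ => w.1 + shift (-w.2) :=
        (shift_qmp m).measurable.comp (measurable_fst.prodMk measurable_snd.neg)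
      exact (hV.comp e1).aemeasurable
  calc ∫⁻ z, V z * ∫⁻ t : ℝ, ENNReal.ofReal (h t ^ 2) * F (z + shift t)
      = ∫⁻ z, ∫⁻ t : ℝ, V z * (ENNReal.ofReal (h t ^ 2) * F (z + shift t)) :=
        lintegral_congr fun z => (lintegral_const_mul' _ _ (hV1 z)).symm
    _ = ∫⁻ t : ℝ, ∫⁻ z, V z * (ENNReal.ofReal (h t ^ 2) * F (z + shift t)) :=
        lintegral_lintegral_swap hA
    _ = ∫⁻ t : ℝ, ∫⁻ z, F z * (ENNReal.ofReal (h t ^ 2) * V (z + shift (-t))) := by
        refine lintegral_congr fun t => ?_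
        rw [← lintegral_add_right_eq_self (fun z : Fin (m + 1) → ℝ =>
          F z * (ENNReal.ofReal (h t ^ 2) * V (z + shift (-t)))) (shift t)]
        refine lintegral_congr fun z => ?_
        rw [shift_neg, add_neg_cancel_right]
        ring
    _ = ∫⁻ z, ∫⁻ t : ℝ, F z * (ENNReal.ofReal (h t ^ 2) * V (z + shift (-t))) :=
        (lintegral_lintegral_swap hB).symm
    _ = ∫⁻ z, F z * ∫⁻ t : ℝ, ENNReal.ofReal (h t ^ 2) * V (z + shift (-t)) :=
        lintegral_congr fun z => lintegral_const_mul' _ _ (hF1 z)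

/-- **The Lieb-Thirring inequality with the semiclassical constant for densities mollified in one
direction.** Let `m ≥ 1`, `d = m + 1`, `h ∈ C_c¹(ℝ)`, `∫ h² = 1`. For every orthonormal system in
`H¹(ℝ^d; ℂ)` with density `ρ` and kinetic energy `T`:
(1) `Kcl d * ∫ (∫ h(t)² ρ(z + t e) dt)^(1+2/d) dz ≤ T + N ∫ h'²`, `e` the last unit vector;
(2) `∫ ρ(z) (∫ h(t)² V(z - t e) dt) dz ≤ T + N ∫ h'² + Lcl d * ∫ V^(1+d/2)` for every measurable `V ≥ 0`
on `ℝ^d`. -/
theorem result (m : ℕ) (hm : 1 ≤ m) (N : ℕ) (u : Fin N → (Fin (m + 1) → ℝ) → ℂ)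
    (g : Fin N → Fin (m + 1) → (Fin (m + 1) → ℝ) → ℂ) (hu : IsSystem u g)
    (h : ℝ → ℝ) (hc : ContDiff ℝ 1 h) (hs : HasCompactSupport h) (h1 : ∫ t, h t ^ 2 = 1) :
    (ENNReal.ofReal (Kcl (m + 1)) *
      ∫⁻ z, mollify h (density u) z ^ (1 + 2 / ((m + 1 : ℕ) : ℝ)) ≤
      ENNReal.ofReal (kinetic g + N * ∫ t, deriv h t ^ 2)) ∧
    ∀ V : (Fin (m + 1) → ℝ) → ℝ, Measurable V → (∀ z, 0 ≤ V z) →
      ∫⁻ z, ENNReal.ofReal (density u z) * mollify (fun t => h (-t)) V z ≤
        ENNReal.ofReal (kinetic g + N * ∫ t, deriv h t ^ 2) +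
          ENNReal.ofReal (Lcl (m + 1)) *
            ∫⁻ z, ENNReal.ofReal (V z ^ (1 + ((m + 1 : ℕ) : ℝ) / 2)) := by
  have hg : ∀ a, LTd.WGradC (u a) (g a) := fun a =>
    ⟨(hu.sobolev a).memLp, (hu.sobolev a).memLp_deriv, (hu.sobolev a).weak⟩
  have hk : ENNReal.ofReal (Kcl (m + 1)) *
      ∫⁻ z, mollify h (density u) z ^ (1 + 2 / ((m + 1 : ℕ) : ℝ)) ≤
      ENNReal.ofReal (kinetic g + N * ∫ t, deriv h t ^ 2) :=
    Pool.Agent.W2helper90.SM.a_MOL m hm N u g hg hu.orthonormal h hc hs h1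
  refine ⟨hk, fun V hV hV0 => ?_⟩
  have hk' : ENNReal.ofReal (LTd.Kcl (m + 1)) *
      ∫⁻ z, mollify h (density u) z ^ (1 + 2 / ((m + 1 : ℕ) : ℝ)) ≤
      ENNReal.ofReal ((1 : ℝ) ^ (2 / ((m + 1 : ℕ) : ℝ))) *
        ENNReal.ofReal (kinetic g + N * ∫ t, deriv h t ^ 2) := by
    rw [Real.one_rpow, ENNReal.ofReal_one, one_mul]
    exact hk
  have h2 := Pool.Agent.W2helper90.SM.dual (d := m + 1) (by omega) one_pos
    (ENNReal.ofReal (kinetic g + N * ∫ t, deriv h t ^ 2)) (mollify h (density u))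
    (fun z => ENNReal.ofReal (V z)) hV.ennreal_ofReal hk'
  rw [Lcl_eq (by omega), one_mul] at h2
  have hq : (0 : ℝ) ≤ 1 + ((m + 1 : ℕ) : ℝ) / 2 := by positivity
  have h3 : ∀ z : Fin (m + 1) → ℝ, ENNReal.ofReal (V z) ^ (1 + ((m + 1 : ℕ) : ℝ) / 2) =
      ENNReal.ofReal (V z ^ (1 + ((m + 1 : ℕ) : ℝ) / 2)) := fun z =>
    ENNReal.ofReal_rpow_of_nonneg (hV0 z) hq
  simp only [h3] at h2
  refine le_trans (le_of_eq ?_) h2
  have hF : AEMeasurable (fun z => ENNReal.ofReal (density u z)) volume := by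
    refine AEMeasurable.ennreal_ofReal ?_
    unfold density
    exact Finset.aemeasurable_fun_sum _ fun a _ =>
      ((hu.sobolev a).memLp.1.norm.aemeasurable.pow_const 2)
  have h4 := swap (m := m) hc.continuous.measurable hF hV.ennreal_ofReal
    (fun z => ENNReal.ofReal_ne_top) (fun z => ENNReal.ofReal_ne_top)
  have e1 : ∀ z, mollify h (density u) z =
      ∫⁻ t : ℝ, ENNReal.ofReal (h t ^ 2) * ENNReal.ofReal (density u (z + shift t)) := by
    intro z
    unfold mollify
    refine lintegral_congr fun t => ?_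
    rw [ENNReal.ofReal_mul (sq_nonneg _)]
  have e2 : ∀ z, mollify (fun t => h (-t)) V z =
      ∫⁻ t : ℝ, ENNReal.ofReal (h t ^ 2) * ENNReal.ofReal (V (z + shift (-t))) := by
    intro z
    unfold mollify
    rw [← lintegral_neg_eq_self (fun t : ℝ =>
      ENNReal.ofReal (h t ^ 2) * ENNReal.ofReal (V (z + shift (-t))))]
    refine lintegral_congr fun t => ?_
    rw [neg_neg, ENNReal.ofReal_mul (sq_nonneg _)]
  simp only [e1, e2]
  exact h4.symm

end Pool.Agent.Results.MP_cfe56d_mp.DirectionalMollification
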