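import Pool.Agent.W2helper90.RT.Mean
import Pool.Agent.R282.KO.Loc

/-!
# The Lieb-Thirring inequality with the semiclassical constant for the rotational means of the density

Let `d = k + m`, `k ≥ 6`. For ALL orthonormal systems `u_1, …, u_N` in `H¹(ℝ^d; ℂ)` the kinetic
inequality holds with the semiclassical constant, as conjectured by Lieb and Thirring, if the density
`ρ = ∑ |u_n|²` is replaced by its mean over the rotations of the first `k` coordinates. In particular
it holds for every system whose density is invariant under these rotations, and, in the dual form, the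
sum of the negative eigenvalues of `-Δ - V` is bounded by the semiclassical expression for every
potential `V(|x'|, x'')`, `x = (x', x'')`, `x' ∈ ℝ^k`, `x'' ∈ ℝ^m`.

Proof. By duality it suffices to consider potentials `V(|x'|, x'')`, and by approximation functions of
class `C¹` with compact support which vanish near `x' = 0`. In the variables `t = log |x'|`,
`ω = x'/|x'|`, `y = x''`, and after the expansion in spherical harmonics (Parseval's identity, and
Bessel's inequality for the tangential gradient), one has to bound `∑_l h_l S(ν_l²)`,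
`ν_l = l + (k-2)/2`, `h_l` the number of the harmonics of degree `l`, where `S(λ)` is the sum of the
negative eigenvalues, with respect to the weight `e^(2t)`, of
`-∂_t² + λ + e^(2t) (-Δ_y - V)` on `L²(ℝ × ℝ^m)`. `S` is convex and decreasing; by the inequality for the
cells of `AllClosedShells` (starting file, needs `k ≥ 6`) the sum is at most
`(2/(k-1)!) ∫ S(λ) d(λ^((k-1)/2))`, which is the integral over `τ > 0` of the sum of the powers
`(k-1)/2 ≥ 3/2` of the negative eigenvalues of `-∂_t² + e^(2t) (-Δ_y - V + τ)`. This is a Schrödinger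
operator on the line with operator valued potential; by the matrix calibration and the lifting
argument of `AllDimensions` (starting file) with the weight `e^(2t)` the sum is bounded by the
semiclassical expression in `m + 1` dimensions; integrate over `τ`.

Authors: helper90 (idea, statements, assembly, weighted lifting, duality, matrices, Bessel's
inequality), helpers 66 (matrix inequality, orthonormal harmonics), 43 (Casimir identity), 72 (density
of the harmonics), 92 (polar coordinates), 93 (energy in polar coordinates), 73 (components),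
5 (constants, coordinates), 11 (cut-off), 17 (approximation in `H¹`), 51 (general potentials, kinetic
form).
-/

set_option autoImplicit false

open MeasureTheory
open scoped ENNReal

namespace Pool.Agent.Results.MP_cfe56d_mp.RotationalMeans

/-- `u ∈ H¹(ℝ^d; ℂ)` with the weak partial derivatives `g i`. -/
structure IsSobolev {d : ℕ} (u : (Fin d → ℝ) → ℂ) (g : Fin d → (Fin d → ℝ) → ℂ) : Prop where
  memLp : MemLp u 2 volume
  memLp_deriv : ∀ i, MemLp (g i) 2 volume
  weak : ∀ i (φ : (Fin d → ℝ) → ℝ), ContDiff ℝ (⊤ : ℕ∞) φ → HasCompactSupport φ →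
    ∫ x, u x * (fderiv ℝ φ x (Pi.single i 1) : ℂ) = - ∫ x, g i x * (φ x : ℂ)

/-- An `L²`-orthonormal system of functions of `H¹(ℝ^d; ℂ)` with the weak derivatives `g`. -/
structure IsSystem {d N : ℕ} (u : Fin N → (Fin d → ℝ) → ℂ)
    (g : Fin N → Fin d → (Fin d → ℝ) → ℂ) : Prop where
  sobolev : ∀ n, IsSobolev (u n) (g n)
  orthonormal : ∀ n n', ∫ x, (starRingEnd ℂ) (u n x) * u n' x = if n = n' then 1 else 0

/-- The density `∑ |u_n|²`. -/
noncomputable def density {d N : ℕ} (u : Fin N → (Fin d → ℝ) → ℂ) (x : Fin d → ℝ) : ℝ := ∑ n, ‖u n x‖ ^ 2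

/-- The kinetic energy `∑ ∫ |∇u_n|²`. -/
noncomputable def kinetic {d N : ℕ} (g : Fin N → Fin d → (Fin d → ℝ) → ℂ) : ℝ :=
  ∑ n, ∑ i, ∫ x, ‖g n i x‖ ^ 2

/-- The volume of the unit ball of `ℝ^d`. -/
noncomputable def ballVolume (d : ℕ) : ℝ :=
  (volume (Metric.ball (0 : EuclideanSpace ℝ (Fin d)) 1)).toReal

/-- The semiclassical constant of the kinetic inequality, `d / (d + 2) * (2π)² / ω_d ^ (2 / d)`. -/
noncomputable def Kcl (d : ℕ) : ℝ :=
  d / (d + 2) * ((2 * Real.pi) ^ 2 / ballVolume d ^ ((2 : ℝ) / d))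

/-- The semiclassical constant for the sum of the negative eigenvalues,
`(2π)^(-d) ∫ (1 - |ξ|²)_+ dξ = 2 / (d + 2) * ω_d / (2π)^d`. -/
noncomputable def Lcl (d : ℕ) : ℝ := 2 / ((d : ℝ) + 2) * (ballVolume d / (2 * Real.pi) ^ d)

/-- The Euclidean norm of the first `k` coordinates. -/
noncomputable def radius (k m : ℕ) (x : Fin (k + m) → ℝ) : ℝ :=
  √(∑ i : Fin k, x (Fin.castAdd m i) ^ 2)

/-- The point whose first `k` coordinates are `radius x * w` and whose last `m` coordinates are those
of `x`. -/
noncomputable def turn (k m : ℕ) (w : EuclideanSpace ℝ (Fin k)) (x : Fin (k + m) → ℝ) :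
    Fin (k + m) → ℝ :=
  fun i => Fin.addCases (fun i => radius k m x * w i) (fun j => x (Fin.natAdd k j)) i

/-- The surface measure of the unit sphere of `ℝ^k`. -/
noncomputable def surface (k : ℕ) : Measure (Metric.sphere (0 : EuclideanSpace ℝ (Fin k)) 1) :=
  (volume : Measure (EuclideanSpace ℝ (Fin k))).toSphere

/-- The mean of `F` over the rotations of the first `k` coordinates: the average over the unit sphere
`S^(k-1)` of the values `F (|x'| w, x'')`, `x = (x', x'')`. -/
noncomputable def rotMean (k m : ℕ) (F : (Fin (k + m) → ℝ) → ℝ≥0∞) (x : Fin (k + m) → ℝ) : ℝ≥0∞ :=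
  (surface k Set.univ)⁻¹ * ∫⁻ w, F (turn k m w x) ∂(surface k)

/-- `V` is invariant under the rotations of the first `k` coordinates: `V(x)` depends only on `|x'|` and
`x''`. -/
def Invariant (k m : ℕ) (V : (Fin (k + m) → ℝ) → ℝ) : Prop := ∀ x x' : Fin (k + m) → ℝ,
  radius k m x = radius k m x' → (∀ j : Fin m, x (Fin.natAdd k j) = x' (Fin.natAdd k j)) →
    V x = V x'

theorem Lcl_eq {d : ℕ} (hd : 1 ≤ d) : Pool.Agent.W2helper90.RT.Lcl d = Lcl d := by
  obtain ⟨h0, h1⟩ := Pool.Agent.W2helper90.RT.t_CST2.2.2 d hd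
  have hd0 : (0 : ℝ) < d := by exact_mod_cast hd
  have hpi := Real.pi_pos
  have hw : 0 < ballVolume d := Pool.Agent.R117.RL.om_pos d
  have h2 : LTd.Kcl d = (d : ℝ) / (d + 2) * ((2 * Real.pi) ^ d / ballVolume d) ^ (2 / (d : ℝ)) := by
    rw [Real.div_rpow (by positivity) hw.le, ← Real.rpow_natCast (2 * Real.pi) d,
      ← Real.rpow_mul (by positivity), mul_div_cancel₀ _ hd0.ne', Real.rpow_two]
    rfl
  rw [h2] at h1
  have h3 := mul_left_cancel₀ (by positivity) h1
  have e1 : 0 ≤ (2 * Real.pi) ^ d / ballVolume d := by positivity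
  have e2 : 0 ≤ 2 / (Pool.Agent.W2helper90.RT.Lcl d * ((d : ℝ) + 2)) := by positivity
  have h4 := Real.rpow_left_injOn (x := 2 / (d : ℝ)) (by positivity) e1 e2 h3
  unfold Lcl
  rw [div_eq_div_iff hw.ne' (by positivity)] at h4
  have hp : (2 * Real.pi) ^ d ≠ 0 := by positivity
  field_simp
  linarith

/-- **The Lieb-Thirring inequality with the semiclassical constant for rotational means.** Let `k ≥ 6`
and `d = k + m`. For every orthonormal system in `H¹(ℝ^d; ℂ)` with density `ρ` and kinetic energy `T`: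
(1) `Kcl d * ∫ (mean ρ)^(1+2/d) ≤ T`, where `mean` is the mean over the rotations of the first `k`
coordinates; (2) if `ρ` is (almost everywhere equal to a function) invariant under these rotations,
then `Kcl d * ∫ ρ^(1+2/d) ≤ T`; (3) `∫ V ρ - T ≤ Lcl d * ∫ V^(1+d/2)` for every invariant potential
`V ≥ 0` (the sum of the negative eigenvalues of `-Δ - V` is the supremum of the left hand side). -/
theorem result (k m : ℕ) (hk : 6 ≤ k) (N : ℕ) (u : Fin N → (Fin (k + m) → ℝ) → ℂ)
    (g : Fin N → Fin (k + m) → (Fin (k + m) → ℝ) → ℂ) (h : IsSystem u g) :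
    (ENNReal.ofReal (Kcl (k + m)) *
      ∫⁻ x, rotMean k m (fun x => ENNReal.ofReal (density u x)) x ^ (1 + 2 / ((k + m : ℕ) : ℝ)) ≤
      ENNReal.ofReal (kinetic g)) ∧
    (∀ ρ₀ : (Fin (k + m) → ℝ) → ℝ, Measurable ρ₀ → Invariant k m ρ₀ →
      (∀ᵐ x, density u x = ρ₀ x) →
      Integrable (fun x => density u x ^ (1 + 2 / ((k + m : ℕ) : ℝ))) ∧
      Kcl (k + m) * ∫ x, density u x ^ (1 + 2 / ((k + m : ℕ) : ℝ)) ≤ kinetic g) ∧
    ∀ V : (Fin (k + m) → ℝ) → ℝ, Measurable V → Invariant k m V → (∀ x, 0 ≤ V x) →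
      ∫⁻ x, ENNReal.ofReal (V x * density u x) ≤ ENNReal.ofReal (kinetic g) +
        ENNReal.ofReal (Lcl (k + m)) *
          ∫⁻ x, ENNReal.ofReal (V x ^ (1 + ((k + m : ℕ) : ℝ) / 2)) := by
  have hg : ∀ n, LTd.WGradC (u n) (g n) := fun n =>
    ⟨(h.sobolev n).memLp, (h.sobolev n).memLp_deriv, (h.sobolev n).weak⟩
  have hS : Pool.Agent.R282.KO.SubGram u :=
    Pool.Agent.R282.KO.sub_of_ortho u (fun n => (hg n).f2) h.orthonormal
  have hInv : ∀ V : (Fin (k + m) → ℝ) → ℝ, Invariant k m V →
      Pool.Agent.W2helper90.RT.Inv k m V := by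
    intro V hV x x' h1 h2
    refine hV x x' ?_ h2
    unfold radius
    rw [h1]
  refine ⟨?_, fun ρ₀ h1 h2 h3 => ?_, fun V h1 h2 h3 => ?_⟩
  · exact Pool.Agent.W2helper90.RT.kin_mean hk u g hg hS
  · have h4 : ∀ᵐ x, ∑ n, ‖u n x‖ ^ 2 = max (ρ₀ x) 0 := by
      filter_upwards [h3] with x hx
      rw [← hx, max_eq_left]
      · rfl
      · exact Finset.sum_nonneg fun n _ => by positivity
    exact Pool.Agent.W2helper90.RT.a_KINF k m hk N u g hg hS (fun x => max (ρ₀ x) 0)
      (h1.max measurable_const) (fun x x' e1 e2 => by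
        show max (ρ₀ x) 0 = max (ρ₀ x') 0
        rw [hInv ρ₀ h2 x x' e1 e2]) (fun x => le_max_right _ _) h4
  · have h4 := Pool.Agent.W2helper90.RT.a_GEN k m hk N u g hg hS V h1 (hInv V h2) h3
    rw [Lcl_eq (by omega)] at h4
    exact h4

end Pool.Agent.Results.MP_cfe56d_mp.RotationalMeans
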