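import Pool.Agent.W2helper90.SM.Fin

/-!
# The Lieb-Thirring inequality with the semiclassical constant for systems in sets with bounded sections

Let `d = m + n`, `m, n ≥ 1`, and let `D ⊆ ℝ^m × ℝ^n` be a set (of finite or infinite measure) whose
sections `D_x ⊆ ℝ^n`, `x ∈ ℝ^m`, have measure at most `A`. For all orthonormal systems of functions of
`H¹(ℝ^d; ℂ)` which vanish outside of `D` the kinetic inequality holds with the semiclassical constant, as
conjectured by Lieb and Thirring, if the density is replaced by its average over the sections; in the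
dual form, the sum of the negative eigenvalues of `-Δ - V` on `D` with Dirichlet boundary conditions is at
most `L_d^cl * A * ∫ V^(1+d/2)` for potentials `V(x)`, `x ∈ ℝ^m`. The case `m = 0` would be the inequality of
Berezin and Li, Yau, the case `n = 0` the conjecture itself. More generally the system need not be
orthonormal and need not vanish anywhere: it suffices that `∑ |u_a⟩⟨u_a| ≤ w` for a function `w` whose
integrals over the sections are at most `A`.

Proof. The argument of Li and Yau is used in the variables `y ∈ ℝ^n` only. The functions `u_a` are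
expanded in a Fourier series of a large cube in `y`; the coefficients for the frequency `ξ` are functions
on `ℝ^m`, and the corresponding operator is at most `A b^(-n)`, because the mass of `φ(x) e^(iξy)` seen by
`w` is at most `A ∫ φ²`. By the bathtub principle, applied to the occupation numbers of the eigenvectors
of the total matrix, the energy of the variables `y` is at least `a * tr γ^(1+2/n)`, and by the sharp
Lieb-Thirring inequality with the exponent `1 + n/2 ≥ 3/2` for vector valued functions on `ℝ^m` in dual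
form (starting file `AllDimensions`, lifting argument) the sum of this and the energy of the variables `x`
is at least `K_d^cl A^(-2/d)` times the integral of `(∑ ∫ |u_a(x,y)|² dy)^(1+2/d)`.

Authors: helper90 (idea, statements, the pieces GRAM, SMO, FUB, APP, assembly), helpers 28 (lattice sum,
bathtub principle), 71 (constants), 24 (coefficients, Parseval, Bessel), 93 (general functions in `H¹`).
-/

set_option autoImplicit false

open MeasureTheory
open scoped ENNReal

namespace Pool.Agent.Results.MP_cfe56d_mp.SectionMeans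

/-- `u ∈ H¹(ℝ^d; ℂ)` with the weak derivatives `g i`. -/
structure IsSobolev {d : ℕ} (u : (Fin d → ℝ) → ℂ) (g : Fin d → (Fin d → ℝ) → ℂ) : Prop where
  memLp : MemLp u 2 volume
  memLp_deriv : ∀ i, MemLp (g i) 2 volume
  weak : ∀ i (φ : (Fin d → ℝ) → ℝ), ContDiff ℝ (⊤ : ℕ∞) φ → HasCompactSupport φ →
    ∫ x, u x * (fderiv ℝ φ x (Pi.single i 1) : ℂ) = - ∫ x, g i x * (φ x : ℂ)

/-- Orthonormality in `L²(ℝ^d; ℂ)`. -/
def IsOrthonormal {d N : ℕ} (u : Fin N → (Fin d → ℝ) → ℂ) : Prop :=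
  ∀ a b, ∫ z, (starRingEnd ℂ) (u a z) * u b z = if a = b then 1 else 0

/-- The density `∑ |u_a|²`. -/
noncomputable def density {d N : ℕ} (u : Fin N → (Fin d → ℝ) → ℂ) (z : Fin d → ℝ) : ℝ := ∑ a, ‖u a z‖ ^ 2

/-- The kinetic energy `∑ ∫ |∇u_a|²`. -/
noncomputable def kinetic {d N : ℕ} (g : Fin N → Fin d → (Fin d → ℝ) → ℂ) : ℝ :=
  ∑ a, ∑ i, ∫ z, ‖g a i z‖ ^ 2

/-- The volume of the unit ball of `ℝ^d`. -/
noncomputable def ballVolume (d : ℕ) : ℝ :=
  (volume (Metric.ball (0 : EuclideanSpace ℝ (Fin d)) 1)).toReal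

/-- The semiclassical constant of the kinetic inequality, `d / (d + 2) * (2π)² / ω_d ^ (2 / d)`. -/
noncomputable def Kcl (d : ℕ) : ℝ :=
  d / (d + 2) * ((2 * Real.pi) ^ 2 / ballVolume d ^ ((2 : ℝ) / d))

/-- The semiclassical constant for the sum of the negative eigenvalues,
`(2π)^(-d) ∫ (1 - |ξ|²)_+ dξ = 2 / (d + 2) * ω_d / (2π)^d`. -/
noncomputable def Lcl (d : ℕ) : ℝ := 2 / ((d : ℝ) + 2) * (ballVolume d / (2 * Real.pi) ^ d)

/-- The integral of the density over the section at `x ∈ ℝ^m`, `∫ ρ(x, y) dy`. -/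
noncomputable def mass {m n N : ℕ} (u : Fin N → (Fin (m + n) → ℝ) → ℂ) (x : Fin m → ℝ) : ℝ≥0∞ :=
  ∫⁻ y : Fin n → ℝ, ENNReal.ofReal (density u (Fin.append x y))

/-- `∑ |u_a⟩⟨u_a| ≤ w` in the sense of quadratic forms, `∑ |∫ ψ u_a|² ≤ ∫ w |ψ|²` for all bounded
measurable `ψ` which vanish outside of a bounded set. -/
def IsBoundedBy {d N : ℕ} (w : (Fin d → ℝ) → ℝ≥0∞) (u : Fin N → (Fin d → ℝ) → ℂ) : Prop :=
  ∀ ψ : (Fin d → ℝ) → ℂ, Measurable ψ → (∃ C : ℝ, ∀ z, ‖ψ z‖ ≤ C) →
    (∃ R : ℝ, ∀ z, R < ‖z‖ → ψ z = 0) →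
    ENNReal.ofReal (∑ a, ‖∫ z, ψ z * u a z‖ ^ 2) ≤ ∫⁻ z, w z * ENNReal.ofReal (‖ψ z‖ ^ 2)

/-- The conclusions: with `d = m + n`, `r(x) = ∫ ρ(x, y) dy` and the kinetic energy `T`,
`Kcl d * ∫ r^(1+2/d) ≤ A^(2/d) * T`, and `∫ V(x) ρ(x, y) ≤ T + A * Lcl d * ∫ V(x)^(1+d/2) dx` for all measurable
`V ≥ 0` on `ℝ^m`. -/
def Conclusion (m n : ℕ) (A : ℝ) {N : ℕ} (u : Fin N → (Fin (m + n) → ℝ) → ℂ)
    (g : Fin N → Fin (m + n) → (Fin (m + n) → ℝ) → ℂ) : Prop :=
  (ENNReal.ofReal (Kcl (m + n)) * ∫⁻ x, mass u x ^ (1 + 2 / ((m + n : ℕ) : ℝ)) ≤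
    ENNReal.ofReal (A ^ (2 / ((m + n : ℕ) : ℝ)) * kinetic g)) ∧
  ∀ V : (Fin m → ℝ) → ℝ, Measurable V → (∀ x, 0 ≤ V x) →
    ∫⁻ z : Fin (m + n) → ℝ, ENNReal.ofReal (V (fun i => z (Fin.castAdd n i)) * density u z) ≤
      ENNReal.ofReal (kinetic g) + ENNReal.ofReal (A * Lcl (m + n)) *
        ∫⁻ x, ENNReal.ofReal (V x ^ (1 + ((m + n : ℕ) : ℝ) / 2))

theorem Lcl_eq {d : ℕ} (hd : 1 ≤ d) : Pool.Agent.W2helper90.RT.Lcl d = Lcl d := by
  obtain ⟨h0, h1⟩ := Pool.Agent.W2helper90.RT.t_CST2.2.2 d hd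
  have hd0 : (0 : ℝ) < d := by exact_mod_cast hd
  have hpi := Real.pi_pos
  have hw : 0 < ballVolume d := Pool.Agent.R117.RL.om_pos d
  have h2 : LTd.Kcl d = (d : ℝ) / (d + 2) * ((2 * Real.pi) ^ d / ballVolume d) ^ (2 / (d : ℝ)) := by
    rw [Real.div_rpow (by positivity) hw.le, ← Real.rpow_natCast (2 * Real.pi) d,
      ← Real.rpow_mul (by positivity), mul_div_cancel₀ _ hd0.ne', Real.rpow_two]
    rfl
  rw [h2] at h1
  have h3 := mul_left_cancel₀ (by positivity) h1
  have e1 : 0 ≤ (2 * Real.pi) ^ d / ballVolume d := by positivity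
  have e2 : 0 ≤ 2 / (Pool.Agent.W2helper90.RT.Lcl d * ((d : ℝ) + 2)) := by positivity
  have h4 := Real.rpow_left_injOn (x := 2 / (d : ℝ)) (by positivity) e1 e2 h3
  unfold Lcl
  rw [div_eq_div_iff hw.ne' (by positivity)] at h4
  have hp : (2 * Real.pi) ^ d ≠ 0 := by positivity
  field_simp
  linarith

theorem general {m n : ℕ} (hm : 1 ≤ m) (hn : 1 ≤ n) {A : ℝ} (hA : 0 < A) {N : ℕ}
    (u : Fin N → (Fin (m + n) → ℝ) → ℂ) (g : Fin N → Fin (m + n) → (Fin (m + n) → ℝ) → ℂ)
    (hu : ∀ a, IsSobolev (u a) (g a)) (w : (Fin (m + n) → ℝ) → ℝ≥0∞) (hw : Measurable w)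
    (hb : IsBoundedBy w u)
    (hs : ∀ᵐ x : Fin m → ℝ, ∫⁻ y : Fin n → ℝ, w (Fin.append x y) ≤ ENNReal.ofReal A) :
    Conclusion m n A u g := by
  have hg : ∀ a, LTd.WGradC (u a) (g a) := fun a =>
    ⟨(hu a).memLp, (hu a).memLp_deriv, (hu a).weak⟩
  have hAp : 0 ≤ A ^ (2 / ((m + n : ℕ) : ℝ)) := Real.rpow_nonneg hA.le _
  have hk := Pool.Agent.W2helper90.SM.a_GW m n hm hn A hA N u g hg w hw hb hs
  have h1 : ENNReal.ofReal (Kcl (m + n)) * ∫⁻ x, mass u x ^ (1 + 2 / ((m + n : ℕ) : ℝ)) ≤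
      ENNReal.ofReal (A ^ (2 / ((m + n : ℕ) : ℝ))) * ENNReal.ofReal (kinetic g) := hk
  refine ⟨?_, fun V hV hV0 => ?_⟩
  · rw [ENNReal.ofReal_mul hAp]
    exact h1
  · have h2 := Pool.Agent.W2helper90.SM.dual (d := m + n) (by omega) hA
      (ENNReal.ofReal (kinetic g)) (mass u) (fun x => ENNReal.ofReal (V x)) hV.ennreal_ofReal h1
    rw [Lcl_eq (by omega)] at h2
    have hq : (0 : ℝ) ≤ 1 + ((m + n : ℕ) : ℝ) / 2 := by positivity
    have h3 : ∀ x : Fin m → ℝ, ENNReal.ofReal (V x) ^ (1 + ((m + n : ℕ) : ℝ) / 2) =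
        ENNReal.ofReal (V x ^ (1 + ((m + n : ℕ) : ℝ) / 2)) := fun x =>
      ENNReal.ofReal_rpow_of_nonneg (hV0 x) hq
    simp only [h3] at h2
    refine le_trans (le_of_eq ?_) h2
    have hfx : Measurable fun z : Fin (m + n) → ℝ => V (fun i => z (Fin.castAdd n i)) :=
      hV.comp (measurable_pi_lambda _ fun i => measurable_pi_apply _)
    have hm : AEMeasurable (fun z : Fin (m + n) → ℝ =>
        ENNReal.ofReal (V (fun i => z (Fin.castAdd n i)) * density u z)) volume := by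
      refine AEMeasurable.ennreal_ofReal (hfx.aemeasurable.mul ?_)
      unfold density
      exact Finset.aemeasurable_fun_sum _ fun a _ =>
        ((hu a).memLp.1.norm.aemeasurable.pow_const 2)
    rw [Pool.Agent.W2helper90.SM.Q_tonelli hm]
    refine lintegral_congr fun x => ?_
    unfold mass
    rw [← lintegral_const_mul' _ _ ENNReal.ofReal_ne_top]
    refine lintegral_congr fun y => ?_
    have e : (fun i : Fin m => Fin.append x y (Fin.castAdd n i)) = x := by
      funext i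
      exact Fin.append_left _ _ _
    rw [e, ENNReal.ofReal_mul (hV0 x)]

/-- **The Lieb-Thirring inequality with the semiclassical constant for sets with bounded sections.** Let
`m, n ≥ 1`, `d = m + n`, `A > 0`, `u_1, …, u_N ∈ H¹(ℝ^d; ℂ)` with density `ρ` and kinetic energy `T`.
(1) If the system is orthonormal and vanishes (a.e.) outside of a measurable set `D` such that almost
all sections `{y ∈ ℝ^n | (x, y) ∈ D}` have measure at most `A`, then
`Kcl d * ∫ (∫ ρ(x, y) dy)^(1+2/d) dx ≤ A^(2/d) * T`, and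
`∫ V(x) ρ(x, y) ≤ T + A * Lcl d * ∫ V(x)^(1+d/2) dx` for every measurable `V ≥ 0` on `ℝ^m`.
(2) The same holds if `∑ |u_a⟩⟨u_a| ≤ w` for a measurable function `w ≥ 0` whose integral over almost all
sections `{x} × ℝ^n` is at most `A` (the functions need not be orthonormal). -/
theorem result (m n : ℕ) (hm : 1 ≤ m) (hn : 1 ≤ n) (A : ℝ) (hA : 0 < A) (N : ℕ)
    (u : Fin N → (Fin (m + n) → ℝ) → ℂ) (g : Fin N → Fin (m + n) → (Fin (m + n) → ℝ) → ℂ)
    (hu : ∀ a, IsSobolev (u a) (g a)) :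
    (∀ D : Set (Fin (m + n) → ℝ), MeasurableSet D → IsOrthonormal u →
      (∀ a, ∀ᵐ z, z ∉ D → u a z = 0) →
      (∀ᵐ x : Fin m → ℝ, volume {y : Fin n → ℝ | Fin.append x y ∈ D} ≤ ENNReal.ofReal A) →
      Conclusion m n A u g) ∧
    ∀ w : (Fin (m + n) → ℝ) → ℝ≥0∞, Measurable w → IsBoundedBy w u →
      (∀ᵐ x : Fin m → ℝ, ∫⁻ y : Fin n → ℝ, w (Fin.append x y) ≤ ENNReal.ofReal A) →
      Conclusion m n A u g := by
  refine ⟨fun D hD ho h0 hs => ?_, fun w hw hb hs => general hm hn hA u g hu w hw hb hs⟩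
  obtain ⟨r, hr⟩ : ∃ r : (Fin (m + n) → ℝ) → ℝ, r = D.indicator fun _ => 1 := ⟨_, rfl⟩
  have hrm : Measurable r := by
    rw [hr]
    exact measurable_const.indicator hD
  have hr1 : ∀ z, |r z| ≤ 1 := by
    intro z
    rw [hr]
    by_cases hz : z ∈ D
    · simp [hz]
    · simp [hz]
  have h1 := Pool.Agent.W2helper24.SM.bes (m + n) N u (fun a => (hu a).memLp) ho r hrm ⟨1, hr1⟩
  refine general hm hn hA u g hu (fun z => ENNReal.ofReal (r z ^ 2))
    (hrm.pow_const 2).ennreal_ofReal (fun ψ p1 p2 p3 => ?_) ?_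
  · refine le_trans (le_of_eq ?_) (h1 ψ p1 p2 p3)
    congr 1
    refine Finset.sum_congr rfl fun a _ => ?_
    congr 2
    refine integral_congr_ae ?_
    filter_upwards [h0 a] with z hz
    by_cases hzD : z ∈ D
    · simp [hr, hzD]
    · simp [hr, hzD, hz hzD]
  · filter_upwards [hs] with x hx
    have e : ∀ y : Fin n → ℝ, ENNReal.ofReal (r (Fin.append x y) ^ 2) =
        {y : Fin n → ℝ | Fin.append x y ∈ D}.indicator (fun _ => (1 : ℝ≥0∞)) y := by
      intro y
      by_cases hy : Fin.append x y ∈ D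
      · simp [hr, hy]
      · simp [hr, hy]
    simp only [e]
    have hap : Measurable fun y : Fin n → ℝ => Fin.append x y := by
      rw [measurable_pi_iff]
      intro i
      refine Fin.addCases (fun i => ?_) (fun j => ?_) i
      · simp only [Fin.append_left]
        exact measurable_const
      · simp only [Fin.append_right]
        exact measurable_pi_apply _
    exact (le_of_eq (lintegral_indicator_one (hap hD))).trans hx

end Pool.Agent.Results.MP_cfe56d_mp.SectionMeans
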