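import Pool.Agent.W2helper1.LT.Perm

/-!
# The semiclassical constant in the Lieb-Thirring kinetic inequality with a Fisher information

Let `u_1, …, u_N ∈ H¹(ℝ^d; ℂ)` be orthonormal, `ρ = ∑ |u_n|²`, `T = ∑ ∫ |∇u_n|²` and let `k` be a
direction. Cut `ℝ^d` into the hyperplanes `x_k = x`. The slice `Γ_x(y, z) = ∑ u_n(x, y) ū_n(x, z)` of
the one-particle density matrix is an operator on the hyperplane; let `F_k(x)` be the (symmetric
logarithmic derivative) Fisher information of the curve `x ↦ Γ_x`, by its variational formula: the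
supremum of `2 tr (Γ_x' L) - tr (Γ_x L²)` over the real symmetric Hilbert-Schmidt kernels `L`. Then

  `K_d^cl ∫ ρ^(1 + 2/d) ≤ T + (3/4) ∫ F_k(x) dx`

with the full semiclassical constant, in every dimension, and `∫ F_k ≤ 4 ∑ ∫ |∂_k u_n|²`. In dimension
one the hyperplanes are points, `F = 4 ((√ρ)')²`, and the inequality reads
`(π²/3) ∫ ρ³ ≤ T + 3 ∫ ((√ρ)')²`.

Proof. The calibration `Φ(B, R) = - tr (R² g(B))`, `g(s) = log ((1/2 + s) / (1/2 - s))`, of the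
one-dimensional matrix-valued inequality with `B = ∫_{t ≤ x} (Gram matrix) - 1/2`, on top of the lifting
in the dimension of the starting files `Helper717/LT`.
-/

set_option autoImplicit false

open MeasureTheory
open scoped ENNReal

namespace Pool.Agent.Results.MP_cfe56d_mp.SemiclassicalFisher

/-- The partial derivative `∂_k φ` of a function on `ℝ^d`. -/
noncomputable def pder {d : ℕ} (k : Fin d) (φ : (Fin d → ℝ) → ℝ) (x : Fin d → ℝ) : ℝ :=
  fderiv ℝ φ x (Pi.single k 1)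

/-- `u` belongs to the Sobolev space `H¹(ℝ^d; ℂ)` and has the weak partial derivatives `g k`:
`u` and all `g k` are in `L²(ℝ^d)`, and `∫ u ∂_k φ = - ∫ g_k φ` for every real test function
`φ ∈ C_c^∞(ℝ^d)`. -/
structure IsSobolev {d : ℕ} (u : (Fin d → ℝ) → ℂ) (g : Fin d → (Fin d → ℝ) → ℂ) : Prop where
  memLp : MemLp u 2 volume
  memLp_deriv : ∀ k, MemLp (g k) 2 volume
  weak : ∀ k (φ : (Fin d → ℝ) → ℝ), ContDiff ℝ (⊤ : ℕ∞) φ → HasCompactSupport φ →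
    ∫ x, u x * (pder k φ x : ℂ) = - ∫ x, g k x * (φ x : ℂ)

/-- The density `ρ = ∑ |u_n|²`. -/
noncomputable def density {d N : ℕ} (u : Fin N → (Fin d → ℝ) → ℂ) (x : Fin d → ℝ) : ℝ :=
  ∑ n, ‖u n x‖ ^ 2

/-- The kinetic energy `∑ ∫ |∇ u_n|²`. -/
noncomputable def kinetic {d N : ℕ} (g : Fin N → Fin d → (Fin d → ℝ) → ℂ) : ℝ :=
  ∑ n, ∑ k, ∫ x, ‖g n k x‖ ^ 2

/-- The semiclassical constant `d / (d + 2) * (2π)² / ω_d ^ (2 / d)`. -/
noncomputable def Kcl (d : ℕ) : ℝ :=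
  d / (d + 2) * ((2 * Real.pi) ^ 2 /
    (volume (Metric.ball (0 : EuclideanSpace ℝ (Fin d)) 1)).toReal ^ ((2 : ℝ) / d))

/-- Real symmetric Hilbert-Schmidt kernels on `ℝ^m`. -/
def IsKernel {m : ℕ} (L : (Fin m → ℝ) → (Fin m → ℝ) → ℝ) : Prop :=
  MemLp (fun p : (Fin m → ℝ) × (Fin m → ℝ) => L p.1 p.2) 2 (volume.prod volume) ∧
    ∀ y z, L y z = L z y

/-- The operator with the kernel `L`, applied to `f`. -/
noncomputable def act {m : ℕ} (L : (Fin m → ℝ) → (Fin m → ℝ) → ℝ) (f : (Fin m → ℝ) → ℂ)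
    (y : Fin m → ℝ) : ℂ :=
  ∫ z, (L y z : ℂ) * f z

/-- `2 tr (Γ' L) - tr (Γ L²) = ∑ (4 Re ⟨v_n, L u_n⟩ - ‖L u_n‖²)` for the operator `Γ` with the kernel
`∑ u_n(y) ū_n(z)` and the operator `Γ'` with the kernel `∑ (v_n(y) ū_n(z) + u_n(y) v̄_n(z))`. -/
noncomputable def form {m N : ℕ} (u v : Fin N → (Fin m → ℝ) → ℂ)
    (L : (Fin m → ℝ) → (Fin m → ℝ) → ℝ) : ℝ :=
  ∑ n, (4 * (∫ y, (starRingEnd ℂ) (v n y) * act L (u n) y).re - ∫ y, ‖act L (u n) y‖ ^ 2)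

/-- The Fisher information `F_k(x)` of the slices `Γ_x = ∑ u_n(x, ·) ⊗ ū_n(x, ·)` of the density
matrix in the direction `k`: the supremum of `2 tr (Γ_x' L) - tr (Γ_x L²)` over the real symmetric
Hilbert-Schmidt kernels `L` on the hyperplane `x_k = x`. -/
noncomputable def fisher {m N : ℕ} (k : Fin (m + 1)) (u : Fin N → (Fin (m + 1) → ℝ) → ℂ)
    (g : Fin N → Fin (m + 1) → (Fin (m + 1) → ℝ) → ℂ) (x : ℝ) : ℝ≥0∞ :=
  ⨆ (L : (Fin m → ℝ) → (Fin m → ℝ) → ℝ) (_ : IsKernel L),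
    ENNReal.ofReal (form (fun n y => u n (k.insertNth x y : Fin (m + 1) → ℝ))
      (fun n y => g n k (k.insertNth x y : Fin (m + 1) → ℝ)) L)

/-- `((√ρ)')² = (Re ∑ ū_n u_n')² / ρ` in dimension one. -/
noncomputable def sqrtDerSq {N : ℕ} (u : Fin N → (Fin 1 → ℝ) → ℂ)
    (g : Fin N → Fin 1 → (Fin 1 → ℝ) → ℂ) (x : Fin 1 → ℝ) : ℝ :=
  (∑ n, (starRingEnd ℂ (u n x) * g n 0 x).re) ^ 2 / density u x

/-- Let `u_1, …, u_N ∈ H¹(ℝ^d; ℂ)` be orthonormal, `d = m + 1 ≥ 1`. Then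
`K_d^cl ∫ ρ^(1 + 2/d) ≤ ∑ ∫ |∇u_n|² + (3/4) ∫ F_k(x) dx` for every direction `k`, where `F_k` is the
Fisher information of the slices of the density matrix in the direction `k`, and
`∫ F_k ≤ 4 ∑ ∫ |∂_k u_n|²`. In dimension one `(π²/3) ∫ ρ³ ≤ ∑ ∫ |u_n'|² + 3 ∫ ((√ρ)')²`. -/
theorem result :
    (∀ (m N : ℕ) (u : Fin N → (Fin (m + 1) → ℝ) → ℂ)
      (g : Fin N → Fin (m + 1) → (Fin (m + 1) → ℝ) → ℂ), (∀ n, IsSobolev (u n) (g n)) →
      (∀ n n', ∫ x, (starRingEnd ℂ) (u n x) * u n' x = if n = n' then 1 else 0) →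
      Integrable (fun x => density u x ^ (1 + 2 / ((m + 1 : ℕ) : ℝ))) ∧
      ∀ k : Fin (m + 1),
        ∫⁻ x, fisher k u g x ≤ ENNReal.ofReal (4 * ∑ n, ∫ x, ‖g n k x‖ ^ 2) ∧
        Kcl (m + 1) * ∫ x, density u x ^ (1 + 2 / ((m + 1 : ℕ) : ℝ)) ≤
          kinetic g + 3 / 4 * (∫⁻ x, fisher k u g x).toReal) ∧
    ∀ (N : ℕ) (u : Fin N → (Fin 1 → ℝ) → ℂ) (g : Fin N → Fin 1 → (Fin 1 → ℝ) → ℂ),
      (∀ n, IsSobolev (u n) (g n)) →
      (∀ n n', ∫ x, (starRingEnd ℂ) (u n x) * u n' x = if n = n' then 1 else 0) →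
      Integrable (sqrtDerSq u g) ∧
      Real.pi ^ 2 / 3 * ∫ x, density u x ^ 3 ≤ kinetic g + 3 * ∫ x, sqrtDerSq u g x := by
  have hS : ∀ {d : ℕ} {u : (Fin d → ℝ) → ℂ} {g : Fin d → (Fin d → ℝ) → ℂ},
      IsSobolev u g → LTd.WGradC u g := fun h => ⟨h.1, h.2, h.3⟩
  constructor
  · intro m N u g hu ho
    have hu' : ∀ n, LTd.WGradC (u n) (g n) := fun n => hS (hu n)
    refine ⟨(Pool.Agent.W2helper1.LT.final_ineq Pool.Agent.W2helper12.LT.approx2
      Pool.Agent.W2helper54.LT.lim m N u g hu' ho).1, fun k => ?_⟩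
    have h := Pool.Agent.W2helper1.LT.final_k m N u g hu' ho k
    have hF : ∀ x, Pool.Agent.W2helper1.LT.fisherk k u (fun n => g n k) x = fisher k u g x :=
      fun _ => rfl
    have hK : LTd.Kcl (m + 1) = Kcl (m + 1) := rfl
    simp only [hF, hK] at h
    refine ⟨h.1, ?_⟩
    have hfin : ∫⁻ x, fisher k u g x ≠ ⊤ := ne_top_of_le_ne_top ENNReal.ofReal_ne_top h.1
    have hT0 : 0 ≤ ∑ i, ∑ k, ∫ x, ‖g i k x‖ ^ 2 := Finset.sum_nonneg fun i _ =>
      Finset.sum_nonneg fun k _ => integral_nonneg fun x => by positivity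
    have e34 : (3 / 4 : ℝ≥0∞) = ENNReal.ofReal (3 / 4) := by
      rw [ENNReal.ofReal_div_of_pos (by norm_num)]
      norm_num
    have h2 := h.2
    rw [e34, ← ENNReal.ofReal_toReal hfin, ← ENNReal.ofReal_mul (by norm_num),
      ← ENNReal.ofReal_add hT0 (by positivity)] at h2
    exact (ENNReal.ofReal_le_ofReal_iff (by positivity)).1 h2
  · intro N u g hu ho
    have hu' : ∀ n, LTd.WGradC (u n) (g n) := fun n => hS (hu n)
    have e : Pool.Agent.W2helper1.LT.sqrtDer u (fun n => g n 0) = sqrtDerSq u g := by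
      funext x
      unfold Pool.Agent.W2helper1.LT.sqrtDer sqrtDerSq density
      congr 2
      refine Finset.sum_congr rfl fun n _ => ?_
      rw [Complex.mul_re, Complex.mul_re, Complex.conj_re, Complex.conj_im, Complex.conj_re,
        Complex.conj_im]
      ring
    have h1 := Pool.Agent.W2helper1.LT.sqrtDer_integrable (u := u) (v := fun n => g n 0)
      (fun n => (hu n).1) (fun n => (hu n).2 0)
    have h2 := Pool.Agent.W2helper1.LT.one_dim Pool.Agent.W2helper12.LT.approx2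
      Pool.Agent.W2helper54.LT.lim N u g hu' ho
    rw [e] at h1 h2
    refine ⟨h1, ?_⟩
    have hk : kinetic g = ∑ i, ∫ x, ‖g i 0 x‖ ^ 2 := by
      unfold kinetic
      refine Finset.sum_congr rfl fun i _ => ?_
      exact Fin.sum_univ_one _
    rw [hk]
    exact h2

end Pool.Agent.Results.MP_cfe56d_mp.SemiclassicalFisher
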